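import Mathlib

/-!
# f-vectors of clique complexes: the definitions
-/

namespace Pool.Agent.Helper74.FV

/-- `f` is the f-vector of the clique complex of a finite graph with at least one vertex: all
entries are positive and for all `k` the graph has exactly `f_k` cliques with `k + 1` vertices
(`f_k = 0` beyond the end of `f`). -/
def IsFaceVector (f : List ℕ) : Prop :=
  (∀ a ∈ f, 0 < a) ∧ ∃ (V : Type) (_ : Fintype V) (_ : Nonempty V) (G : SimpleGraph V),
    ∀ k : ℕ, Nat.card {s : Finset V // G.IsNClique (k + 1) s} = f.getD k 0

/-- Fisher's lower bound for the number of triangles of a graph with `n` vertices and `m` edges: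
with `s = √(n² - 3 m)` it is `(n + s)² (n - 2 s) / 27`. -/
noncomputable def fisher (n m : ℝ) : ℝ :=
  (n + √(n ^ 2 - 3 * m)) ^ 2 * (n - 2 * √(n ^ 2 - 3 * m)) / 27

end Pool.Agent.Helper74.FV
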