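import Pool.Agent.Helper74.FV.Up

/-!
# Fisher's lower bound for the number of triangles of a graph without `K₄`

The proof of Fisher (1989), with the dependence polynomial `DD G S x = ∑ (-x)^|K|` over the cliques
`K ⊆ S` (the empty clique included).
-/

namespace Pool.Agent.Helper74.FV

open Finset

variable {V : Type} [Fintype V] [DecidableEq V] (G : SimpleGraph V)

open Classical in
/-- The cliques inside `S`, the empty one included. -/
noncomputable def cs (S : Finset V) : Finset (Finset V) :=
  S.powerset.filter fun K => G.IsClique (K : Set V)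

theorem mem_cs {S K : Finset V} : K ∈ cs G S ↔ K ⊆ S ∧ G.IsClique (K : Set V) := by
  simp [cs]

/-- The dependence polynomial. -/
noncomputable def DD (S : Finset V) (x : ℝ) : ℝ := ∑ K ∈ cs G S, (-x) ^ K.card

open Classical in
/-- The neighbours of `v`. -/
noncomputable def nb (v : V) : Finset V := univ.filter fun u => G.Adj v u

theorem mem_nb {v u : V} : u ∈ nb G v ↔ G.Adj v u := by
  simp [nb]

variable {G}

theorem isClique_insert' {v : V} {K : Finset V} (hv : v ∉ K) :
    G.IsClique ((insert v K : Finset V) : Set V) ↔ G.IsClique (K : Set V) ∧ K ⊆ nb G v := by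
  rw [Finset.coe_insert, SimpleGraph.isClique_insert]
  constructor
  · rintro ⟨h1, h2⟩
    refine ⟨h1, fun u hu => ?_⟩
    rw [mem_nb]
    exact h2 u hu fun h => hv (h ▸ hu)
  · rintro ⟨h1, h2⟩
    exact ⟨h1, fun u hu _ => (mem_nb G).1 (h2 hu)⟩

theorem DD_insert {v : V} {S : Finset V} (hv : v ∉ S) (x : ℝ) :
    DD G (insert v S) x = DD G S x - x * DD G (S ∩ nb G v) x := by
  have h1 : cs G (insert v S) = cs G S ∪ (cs G (S ∩ nb G v)).image (insert v) := by
    ext K
    rw [mem_union, mem_image, mem_cs, mem_cs]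
    constructor
    · rintro ⟨hK, hc⟩
      by_cases hvK : v ∈ K
      · right
        refine ⟨K.erase v, ?_, Finset.insert_erase hvK⟩
        have h2 := (isClique_insert' (G := G) (v := v) (K := K.erase v)
          (Finset.notMem_erase v K)).1 (by rwa [Finset.insert_erase hvK])
        rw [mem_cs]
        refine ⟨?_, h2.1⟩
        rw [Finset.subset_inter_iff]
        refine ⟨?_, h2.2⟩
        intro u hu
        rw [Finset.mem_erase] at hu
        have := hK hu.2
        rw [Finset.mem_insert] at this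
        exact this.resolve_left hu.1
      · left
        refine ⟨fun u hu => ?_, hc⟩
        have := hK hu
        rw [Finset.mem_insert] at this
        exact this.resolve_left fun h => hvK (h ▸ hu)
    · rintro (⟨hK, hc⟩ | ⟨K', hK', rfl⟩)
      · exact ⟨hK.trans (Finset.subset_insert v S), hc⟩
      · rw [mem_cs, Finset.subset_inter_iff] at hK'
        have hvK : v ∉ K' := fun h => hv (hK'.1.1 h)
        exact ⟨Finset.insert_subset_insert v hK'.1.1, (isClique_insert' hvK).2 ⟨hK'.2, hK'.1.2⟩⟩
  have hinj : ∀ K ∈ cs G (S ∩ nb G v), v ∉ K := by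
    intro K hK h
    rw [mem_cs, Finset.subset_inter_iff] at hK
    exact hv (hK.1.1 h)
  unfold DD
  rw [h1, Finset.sum_union, Finset.sum_image, sub_eq_add_neg, Finset.mul_sum,
    ← Finset.sum_neg_distrib]
  · congr 1
    refine Finset.sum_congr rfl fun K hK => ?_
    rw [Finset.card_insert_of_notMem (hinj K hK), pow_succ]
    ring
  · intro K hK L hL h
    rw [← Finset.erase_insert (hinj K hK), ← Finset.erase_insert (hinj L hL), h]
  · rw [Finset.disjoint_left]
    intro K hK hK'
    obtain ⟨L, -, rfl⟩ := Finset.mem_image.1 hK'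
    rw [mem_cs] at hK
    exact hv (hK.1 (Finset.mem_insert_self v L))

theorem DD_continuous (S : Finset V) : Continuous (DD G S) := by
  unfold DD
  exact continuous_finsetSum _ fun K _ => (continuous_neg).pow _

theorem DD_empty (x : ℝ) : DD G ∅ x = 1 := by
  have : cs G (∅ : Finset V) = {∅} := by
    ext K
    rw [mem_cs, Finset.mem_singleton, Finset.subset_empty]
    constructor
    · rintro ⟨h, -⟩
      exact h
    · rintro rfl
      simp
  unfold DD
  rw [this]
  simp

theorem DD_zero (S : Finset V) : DD G S 0 = 1 := by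
  unfold DD
  rw [Finset.sum_eq_single ∅]
  · simp
  · intro K _ hK
    rw [neg_zero, zero_pow]
    exact (Finset.card_pos.2 (Finset.nonempty_iff_ne_empty.2 hK)).ne'
  · intro h
    refine absurd ?_ h
    rw [mem_cs]
    simp

/-- A continuous function which is positive on `[0, r)` is nonnegative at `r`. -/
theorem nonneg_end {f : ℝ → ℝ} (hf : Continuous f) {r : ℝ} (hr : 0 < r)
    (h : ∀ y, 0 ≤ y → y < r → 0 < f y) : 0 ≤ f r := by
  by_contra hcon
  push Not at hcon
  have h0 : 0 < f 0 := h 0 le_rfl hr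
  have h1 := intermediate_value_Icc' hr.le hf.continuousOn
  obtain ⟨y, hy, hy0⟩ := h1 ⟨hcon.le, h0.le⟩
  rcases eq_or_lt_of_le hy.2 with h2 | h2
  · rw [h2] at hy0
    linarith
  · have := h y hy.1 h2
    linarith

/-- The smallest positive root. -/
theorem exists_root (S : Finset V) : S.Nonempty → ∃ r : ℝ, 0 < r ∧ DD G S r ≤ 0 ∧
    ∀ T ⊆ S, ∀ y, 0 ≤ y → y < r → 0 < DD G T y := by
  induction S using Finset.strongInduction with
  | H S ih =>
    intro hS
    -- for every `u ∈ S` with `S \ {u}` nonempty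
    have hstep : ∀ u ∈ S, (S.erase u).Nonempty → ∃ r : ℝ, 0 < r ∧ DD G S r ≤ 0 ∧
        ∀ T ⊆ S.erase u, ∀ y, 0 ≤ y → y < r → 0 < DD G T y := by
      intro u hu hne
      obtain ⟨r, hr, h1, h2⟩ := ih (S.erase u) (Finset.erase_ssubset hu) hne
      refine ⟨r, hr, ?_, h2⟩
      have h3 := DD_insert (G := G) (v := u) (S := S.erase u) (Finset.notMem_erase u S) r
      rw [Finset.insert_erase hu] at h3
      have h4 : 0 ≤ DD G (S.erase u ∩ nb G u) r :=
        nonneg_end (DD_continuous _) hr fun y hy hy' => h2 _ Finset.inter_subset_left y hy hy'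
      rw [h3]
      have := mul_nonneg hr.le h4
      linarith
    set A : Set ℝ := {y | 0 ≤ y ∧ DD G S y ≤ 0} with hA
    have hAcl : IsClosed A := by
      rw [hA]
      exact IsClosed.inter (isClosed_le continuous_const continuous_id)
        (isClosed_le (DD_continuous S) continuous_const)
    have hAbd : BddBelow A := ⟨0, fun y hy => hy.1⟩
    have hAne : A.Nonempty := by
      obtain ⟨u, hu⟩ := hS
      by_cases hne : (S.erase u).Nonempty
      · obtain ⟨r, hr, h1, -⟩ := hstep u hu hne
        exact ⟨r, hr.le, h1⟩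
      · rw [Finset.not_nonempty_iff_eq_empty] at hne
        refine ⟨1, zero_le_one, ?_⟩
        have h3 := DD_insert (G := G) (v := u) (S := S.erase u) (Finset.notMem_erase u S) 1
        rw [Finset.insert_erase hu, hne, Finset.empty_inter, DD_empty] at h3
        rw [h3]
        norm_num
    have hr := hAcl.csInf_mem hAne hAbd
    set r := sInf A with hrdef
    have hr0 : 0 < r := by
      rcases eq_or_lt_of_le hr.1 with h | h
      · have := hr.2
        rw [← h, DD_zero] at this
        linarith
      · exact h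
    refine ⟨r, hr0, hr.2, fun T hT y hy hy' => ?_⟩
    by_cases hTS : T = S
    · rw [hTS]
      by_contra hcon
      push Not at hcon
      have : r ≤ y := csInf_le hAbd ⟨hy, hcon⟩
      linarith
    · obtain ⟨u, hu, huT⟩ : ∃ u ∈ S, u ∉ T := by
        by_contra hcon
        push Not at hcon
        exact hTS (Finset.Subset.antisymm hT hcon)
      have hT' : T ⊆ S.erase u := fun i hi =>
        Finset.mem_erase.2 ⟨fun h => huT (h ▸ hi), hT hi⟩
      by_cases hne : (S.erase u).Nonempty
      · obtain ⟨r', hr', h1, h2⟩ := hstep u hu hne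
        have : r ≤ r' := csInf_le hAbd ⟨hr'.le, h1⟩
        exact h2 T hT' y hy (by linarith)
      · rw [Finset.not_nonempty_iff_eq_empty] at hne
        rw [hne, Finset.subset_empty] at hT'
        rw [hT', DD_empty]
        exact zero_lt_one

/-- The derivative. -/
theorem sum_DD_nb (x : ℝ) :
    ∑ v, DD G (nb G v) x = ∑ L ∈ cs G univ, (L.card : ℝ) * (-x) ^ (L.card - 1) := by
  have h1 : ∀ v, DD G (nb G v) x =
      ∑ L ∈ cs G univ, if v ∈ L then (-x) ^ (L.card - 1) else 0 := by
    intro v
    unfold DD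
    rw [← Finset.sum_filter]
    refine Finset.sum_nbij' (fun K => insert v K) (fun L => L.erase v) ?_ ?_ ?_ ?_ ?_
    · intro K hK
      rw [mem_cs] at hK
      have hv : v ∉ K := fun h => G.loopless.irrefl v ((mem_nb G).1 (hK.1 h))
      rw [Finset.mem_filter, mem_cs]
      exact ⟨⟨Finset.subset_univ _, (isClique_insert' hv).2 ⟨hK.2, hK.1⟩⟩,
        Finset.mem_insert_self v K⟩
    · intro L hL
      rw [Finset.mem_filter, mem_cs] at hL
      rw [mem_cs]
      have h2 := (isClique_insert' (G := G) (v := v) (K := L.erase v)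
          (Finset.notMem_erase v L)).1 (by rw [Finset.insert_erase hL.2]; exact hL.1.2)
      exact ⟨h2.2, h2.1⟩
    · intro K hK
      rw [mem_cs] at hK
      have hv : v ∉ K := fun h => G.loopless.irrefl v ((mem_nb G).1 (hK.1 h))
      exact Finset.erase_insert hv
    · intro L hL
      rw [Finset.mem_filter] at hL
      exact Finset.insert_erase hL.2
    · intro K hK
      rw [mem_cs] at hK
      have hv : v ∉ K := fun h => G.loopless.irrefl v ((mem_nb G).1 (hK.1 h))
      rw [Finset.card_insert_of_notMem hv, Nat.add_sub_cancel]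
  rw [Finset.sum_congr rfl fun v _ => h1 v, Finset.sum_comm]
  refine Finset.sum_congr rfl fun L _ => ?_
  rw [← Finset.sum_filter, Finset.sum_const, nsmul_eq_mul]
  congr 3
  ext v
  simp

theorem sum_cs (h4 : G.CliqueFree 4) (g : ℕ → ℝ) :
    ∑ L ∈ cs G univ, g L.card = g 0 + ((cl G 1).card : ℝ) * g 1 + ((cl G 2).card : ℝ) * g 2 +
      ((cl G 3).card : ℝ) * g 3 := by
  have h1 : ∀ L ∈ cs G univ, L.card ∈ Finset.range 4 := by
    intro L hL
    rw [mem_cs] at hL
    rw [Finset.mem_range]
    by_contra hcon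
    push Not at hcon
    obtain ⟨T, hT, hTc⟩ := Finset.exists_subset_card_eq hcon
    exact h4 T ⟨hL.2.subset (by exact_mod_cast hT), hTc⟩
  rw [← Finset.sum_fiberwise_of_maps_to h1]
  have h2 : ∀ k, ∑ L ∈ (cs G univ).filter (fun L => L.card = k), g L.card =
      ((cl G k).card : ℝ) * g k := by
    intro k
    have : (cs G univ).filter (fun L => L.card = k) = cl G k := by
      ext L
      rw [Finset.mem_filter, mem_cs, mem_cl, SimpleGraph.isNClique_iff]
      simp
    rw [this]
    rw [Finset.sum_congr rfl (g := fun _ => g k), Finset.sum_const, nsmul_eq_mul]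
    intro L hL
    rw [mem_cl] at hL
    rw [hL.card_eq]
  rw [Finset.sum_congr rfl fun k _ => h2 k]
  have h0 : cl G 0 = {∅} := by
    ext L
    rw [mem_cl, Finset.mem_singleton, SimpleGraph.isNClique_zero]
  simp only [Finset.sum_range_succ, Finset.sum_range_zero, h0, Finset.card_singleton]
  push_cast
  ring

/-- Fisher's lower bound. -/
theorem lower (h4 : G.CliqueFree 4) {n m t : ℝ} (hn : n = (cl G 1).card) (hm : m = (cl G 2).card)
    (ht : t = (cl G 3).card) :
    (n + √(n ^ 2 - 3 * m)) ^ 2 * (n - 2 * √(n ^ 2 - 3 * m)) / 27 ≤ t := by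
  have hup := (upper h4).1
  rw [← hn, ← hm] at hup
  have ht0 : 0 ≤ t := ht ▸ Nat.cast_nonneg _
  have hn0 : 0 ≤ n := hn ▸ Nat.cast_nonneg _
  have hs2 : √(n ^ 2 - 3 * m) ^ 2 = n ^ 2 - 3 * m := Real.sq_sqrt (by linarith)
  have hs0 : 0 ≤ √(n ^ 2 - 3 * m) := Real.sqrt_nonneg _
  set s := √(n ^ 2 - 3 * m) with hs
  by_contra hcon
  push Not at hcon
  set A := (n + s) / 3 with hAdef
  set B := (n - 2 * s) / 3 with hBdef
  have hAB : (n + s) ^ 2 * (n - 2 * s) / 27 = A ^ 2 * B := by
    rw [hAdef, hBdef]
    ring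
  have e1 : n = 2 * A + B := by
    rw [hAdef, hBdef]
    ring
  have e2 : m = A ^ 2 + 2 * A * B := by
    rw [hAdef, hBdef]
    linear_combination (1 / 3) * hs2
  rw [hAB] at hcon
  have hB : 0 < B := by
    by_contra hB
    push Not at hB
    nlinarith [mul_nonneg (sq_nonneg A) (neg_nonneg.2 hB)]
  have hBA : B ≤ A := by
    rw [hAdef, hBdef]
    linarith
  have hA : 0 < A := lt_of_lt_of_le hB hBA
  have hne : (univ : Finset V).Nonempty := by
    rw [Finset.univ_nonempty_iff]
    by_contra hcon'
    rw [not_nonempty_iff] at hcon'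
    have : cl G 1 = ∅ := by
      ext L
      rw [mem_cl, SimpleGraph.isNClique_iff]
      constructor
      · rintro ⟨-, h⟩
        obtain ⟨a, ha⟩ := Finset.card_pos.1 (by omega : 0 < L.card)
        exact hcon'.elim a
      · intro h
        simp at h
    rw [this] at hn
    simp at hn
    linarith
  obtain ⟨r, hr, h1, h2⟩ := exists_root (G := G) univ hne
  have hf : ∀ y, DD G univ y = 1 - n * y + m * y ^ 2 - t * y ^ 3 := by
    intro y
    unfold DD
    rw [sum_cs h4 fun k => (-y) ^ k, ← hn, ← hm, ← ht]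
    ring
  have hd : 0 ≤ ∑ v, DD G (nb G v) (1 / A) := by
    have hrB : 1 / B < r := by
      by_contra hcon'
      push Not at hcon'
      rw [hf, e1, e2] at h1
      have h3 : 1 - (2 * A + B) * r + (A ^ 2 + 2 * A * B) * r ^ 2 - t * r ^ 3 =
          (1 - A * r) ^ 2 * (1 - B * r) + (A ^ 2 * B - t) * r ^ 3 := by ring
      rw [h3] at h1
      have h4 : B * r ≤ 1 := by
        rw [le_div_iff₀ hB] at hcon'
        linarith
      have h5 : 0 ≤ (1 - A * r) ^ 2 * (1 - B * r) := mul_nonneg (sq_nonneg _) (by linarith)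
      have h6 : 0 < (A ^ 2 * B - t) * r ^ 3 := mul_pos (by linarith) (by positivity)
      linarith
    have hAB' : 1 / A ≤ 1 / B := one_div_le_one_div_of_le hB hBA
    refine Finset.sum_nonneg fun v _ => ?_
    exact (h2 _ (Finset.subset_univ _) _ (by positivity) (by linarith)).le
  rw [sum_DD_nb, sum_cs h4 fun k => (k : ℝ) * (-(1 / A)) ^ (k - 1), ← hn, ← hm, ← ht] at hd
  have e3 : ((0 : ℕ) : ℝ) * (-(1 / A)) ^ (0 - 1) + n * (((1 : ℕ) : ℝ) * (-(1 / A)) ^ (1 - 1)) +
      m * (((2 : ℕ) : ℝ) * (-(1 / A)) ^ (2 - 1)) + t * (((3 : ℕ) : ℝ) * (-(1 / A)) ^ (3 - 1)) =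
      3 * (t - A ^ 2 * B) / A ^ 2 := by
    rw [e1, e2]
    have h3 : (-(1 / A)) ^ (3 - 1) = 1 / A ^ 2 := by
      norm_num
    have h2 : (-(1 / A)) ^ (2 - 1) = -(1 / A) := by
      norm_num
    rw [h3, h2, pow_zero]
    push_cast
    field_simp
    ring
  rw [e3] at hd
  have : 3 * (t - A ^ 2 * B) / A ^ 2 < 0 := by
    apply div_neg_of_neg_of_pos
    · linarith
    · positivity
  linarith

end Pool.Agent.Helper74.FV
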