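import Pool.Agent.Helper74.FV.Num

/-!
# The f-vectors of two-dimensional clique complexes
-/

namespace Pool.Agent.Helper74.FV

open Real

/-- The vertex count. -/
theorem vertex_count (N m t x : ℕ) (hx : 0 < x) (hN : 3 * m ≤ N ^ 2) (htx : t ≤ x ^ 3)
    (hg : gg t x ≤ m) (hF : fisher N m ≤ t) : 2 * x + t / x ^ 2 ≤ N := by
  have hxx : 0 < x ^ 2 := Nat.pow_pos hx
  set y := t / x ^ 2 with hy
  by_cases hcase : 3 * x ^ 2 ≤ m
  · have h1 : y ≤ x := by
      rw [hy]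
      apply Nat.div_le_of_le_mul
      calc t ≤ x ^ 3 := htx
        _ = x ^ 2 * x := by ring
    have h2 : (3 * x) ^ 2 ≤ N ^ 2 := by
      calc (3 * x) ^ 2 = 3 * (3 * x ^ 2) := by ring
        _ ≤ 3 * m := by omega
        _ ≤ N ^ 2 := hN
    have h3 : 3 * x ≤ N := (Nat.pow_le_pow_iff_left (by norm_num)).1 h2
    omega
  · have hcase' : (m : ℝ) < 3 * (x : ℝ) ^ 2 := by
      have : m < 3 * x ^ 2 := by omega
      exact_mod_cast this
    have hx' : (0 : ℝ) < x := by exact_mod_cast hx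
    have hm' : (0 : ℝ) ≤ m := by positivity
    have hNr : 3 * (m : ℝ) ≤ (N : ℝ) ^ 2 := by exact_mod_cast hN
    have hN0 : (0 : ℝ) ≤ N := by positivity
    have hgr : (x : ℝ) ^ 2 + 2 * x * y + 3 * x ≤ m := by
      have : x ^ 2 + 2 * x * y + 3 * x ≤ m := hg
      exact_mod_cast this
    have hty : (t : ℝ) < (x : ℝ) ^ 2 * (y + 1) := by
      have : t < x ^ 2 * (y + 1) := Nat.lt_mul_div_succ t hxx
      exact_mod_cast this
    set s := √((N : ℝ) ^ 2 - 3 * m) with hs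
    have hs0 : 0 ≤ s := Real.sqrt_nonneg _
    have hs2 : s ^ 2 = (N : ℝ) ^ 2 - 3 * m := Real.sq_sqrt (by linarith)
    set Y := ((N : ℝ) + s) / 3 with hY
    have hsY : s = 3 * Y - N := by
      rw [hY]
      ring
    have F1 : 3 * Y ^ 2 + m = 2 * N * Y := by
      rw [hsY] at hs2
      nlinarith
    have F2 : fisher N m = Y * (m - Y ^ 2) / 2 := by
      unfold fisher
      rw [← hs, hsY]
      linear_combination (-Y / 2) * F1
    have hY3 : (N : ℝ) ≤ 3 * Y := by linarith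
    have F3 : (m : ℝ) ≤ 3 * Y ^ 2 := by nlinarith
    have F5 : (t : ℝ) < x * (m - (x : ℝ) ^ 2) / 2 := by nlinarith
    have hxY : (x : ℝ) < Y := by
      by_contra hcon
      push Not at hcon
      have h1 : Y * (m - Y ^ 2) / 2 - x * (m - (x : ℝ) ^ 2) / 2 =
          (x - Y) * (x ^ 2 + x * Y + Y ^ 2 - m) / 2 := by ring
      have hY0 : 0 ≤ Y := by linarith
      have h2 : 0 ≤ (x : ℝ) ^ 2 + x * Y + Y ^ 2 - m := by nlinarith
      have h3 : 0 ≤ (x - Y) * ((x : ℝ) ^ 2 + x * Y + Y ^ 2 - m) :=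
        mul_nonneg (by linarith) h2
      rw [F2] at hF
      linarith
    have hYpos : 0 < Y := hx'.trans hxY
    have F6 : 0 ≤ 2 * N * x - 3 * (x : ℝ) ^ 2 - m := by
      have h1 : Y * (2 * N * x - 3 * (x : ℝ) ^ 2 - m) = (Y - x) * (3 * x * Y - m) := by
        linear_combination (-(x : ℝ)) * F1
      have h2 : 0 ≤ (Y - x) * (3 * x * Y - m) :=
        mul_nonneg (by linarith) (by nlinarith)
      rw [← h1] at h2
      exact nonneg_of_mul_nonneg_right h2 hYpos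
    have F7 : 2 * (x : ℝ) + y ≤ N := by
      have h1 : x * (4 * (x : ℝ) + 2 * y) ≤ x * (2 * N) := by nlinarith
      have h2 := le_of_mul_le_mul_left h1 hx'
      linarith
    exact_mod_cast F7

/-- The starting value. -/
theorem exists_start (m t : ℕ) (ht : 1 ≤ t)
    (h : (t : ℝ) ≤ ((m : ℝ) / 3) ^ (3 / 2 : ℝ) - m) :
    ∃ x0, 0 < x0 ∧ gg t x0 ≤ m ∧ t ≤ x0 ^ 3 := by
  set u := √((m : ℝ) / 3) with hu
  have hu0 : 0 ≤ u := Real.sqrt_nonneg _
  have hu2 : u ^ 2 = (m : ℝ) / 3 := Real.sq_sqrt (by positivity)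
  have hu3 : ((m : ℝ) / 3) ^ (3 / 2 : ℝ) = u ^ 3 := by
    rw [← hu2, ← Real.rpow_natCast u 2, ← Real.rpow_mul hu0, ← Real.rpow_natCast u 3]
    norm_num
  have hm : (m : ℝ) = 3 * u ^ 2 := by linarith
  rw [hu3, hm] at h
  set w := (t : ℝ) ^ (1 / 3 : ℝ) with hw
  have hw0 : 0 ≤ w := Real.rpow_nonneg (by positivity) _
  have hw3 : w ^ 3 = t := by
    rw [hw, ← Real.rpow_natCast, ← Real.rpow_mul (by positivity)]
    norm_num
  have ht' : (1 : ℝ) ≤ t := by exact_mod_cast ht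
  have hu3' : 3 < u := by
    by_contra hcon
    push Not at hcon
    nlinarith [sq_nonneg u]
  have hwu : w < u - 1 := by
    apply lt_of_pow_lt_pow_left₀ 3 (by linarith)
    rw [hw3]
    nlinarith
  have hw1 : 1 ≤ w := by
    by_contra hcon
    push Not at hcon
    have : w ^ 3 < 1 := pow_lt_one₀ hw0 hcon (by norm_num)
    linarith
  set x0 := ⌈w⌉₊ with hx0
  have h1 : w ≤ x0 := Nat.le_ceil w
  have h2 : (x0 : ℝ) < w + 1 := Nat.ceil_lt_add_one hw0
  have hx0pos : (0 : ℝ) < x0 := by linarith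
  have hx0nat : 0 < x0 := by exact_mod_cast hx0pos
  refine ⟨x0, hx0nat, ?_, ?_⟩
  · have h3 : (x0 : ℝ) * ((x0 : ℝ) ^ 2 + 2 * x0 * (t / x0 ^ 2 : ℕ) + 3 * x0) ≤ x0 * m := by
      have h4 : (x0 : ℝ) ^ 2 * (t / x0 ^ 2 : ℕ) ≤ t := by
        exact_mod_cast Nat.mul_div_le t (x0 ^ 2)
      rw [← hw3] at h4
      rw [hm]
      have h5 : (x0 - w) ^ 2 * (x0 + 2 * w) ≤ 1 * ((x0 : ℝ) + 2 * w) := by
        apply mul_le_mul_of_nonneg_right _ (by linarith)
        nlinarith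
      have h6 : (x0 : ℝ) ^ 3 + 2 * w ^ 3 ≤ 3 * w ^ 2 * x0 + 3 * x0 := by nlinarith
      have h7 : 3 * w ^ 2 + 3 * w + 6 ≤ 3 * u ^ 2 := by nlinarith
      nlinarith
    have h4 := le_of_mul_le_mul_left h3 hx0pos
    unfold gg
    exact_mod_cast h4
  · have h3 : (t : ℝ) ≤ (x0 : ℝ) ^ 3 := by
      rw [← hw3]
      exact pow_le_pow_left₀ hw0 h1 3
    exact_mod_cast h3

theorem main (n m t : ℕ) (hn : 10 ≤ n) (ht : 1 ≤ t) (hm : 3 * m ≤ (n - 10) ^ 2)
    (h1 : fisher (n - 10) m ≤ t) (h2 : (t : ℝ) ≤ ((m : ℝ) / 3) ^ (3 / 2 : ℝ) - m) :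
    IsFaceVector [n, m, t] := by
  obtain ⟨x0, hx0, hg0, ht0⟩ := exists_start m t ht h2
  obtain ⟨x, hx, hg, hg'⟩ := exists_param m t x0 hx0 hg0
  have hxpos : 0 < x := by omega
  have htx : t ≤ x ^ 3 := ht0.trans (Nat.pow_le_pow_left hx 3)
  have hF : fisher ((n - 10 : ℕ) : ℝ) m ≤ t := by
    rw [Nat.cast_sub hn]
    exact_mod_cast h1
  have hv := vertex_count (n - 10) m t x hxpos hm htx hg hF
  exact isFaceVector_of_param n m t x hxpos ht hg hg' (by omega)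

end Pool.Agent.Helper74.FV
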