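import Pool.Agent.Helper74.FV.Tri

/-!
# Choice of the parameters
-/

namespace Pool.Agent.Helper74.FV

open Finset

theorem exists_split (x : ℕ) : ∀ r e : ℕ, e ≤ r * x →
    ∃ s : Fin r → ℕ, (∀ i, s i ≤ x) ∧ ∑ i, s i = e := by
  intro r
  induction r with
  | zero =>
    intro e he
    refine ⟨fun _ => 0, fun i => i.elim0, ?_⟩
    simp at he ⊢
    exact he.symm
  | succ r ih =>
    intro e he
    obtain ⟨s, hs, hsum⟩ := ih (e - min e x) (by
      rw [Nat.succ_mul] at he
      rcases le_total e x with h | h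
      · rw [min_eq_left h]
        simp
      · rw [min_eq_right h]
        omega)
    refine ⟨Fin.cons (min e x) s, ?_, ?_⟩
    · intro i
      refine Fin.cases ?_ (fun i => ?_) i
      · simp
      · simpa using hs i
    · rw [Fin.sum_univ_succ]
      simp only [Fin.cons_zero, Fin.cons_succ, hsum]
      have := min_le_left e x
      omega

/-- Arithmetic of one value of `x`. -/
theorem isFaceVector_of_param (n m t x : ℕ) (hx : 0 < x) (ht : 0 < t)
    (h1 : x ^ 2 + 2 * x * (t / x ^ 2) + 3 * x ≤ m)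
    (h2 : m ≤ x ^ 2 + 2 * x * (t / x ^ 2) + 3 * x + (4 * x + 3))
    (h3 : 2 * x + t / x ^ 2 + 10 ≤ n) : IsFaceVector [n, m, t] := by
  set y := t / x ^ 2 with hy
  set r0 := t % x ^ 2 with hr0
  set a := r0 / x with ha
  set b := r0 % x with hb
  have hxx : 0 < x ^ 2 := Nat.pow_pos hx
  have hr0lt : r0 < x * x := by
    have := Nat.mod_lt t hxx
    rw [pow_two] at this
    rw [hr0, pow_two]
    exact this
  have ha' : a < x := Nat.div_lt_of_lt_mul hr0lt
  have hb' : b < x := Nat.mod_lt _ hx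
  have ht' : t = x * x * y + (x * a + b) := by
    have e1 := Nat.div_add_mod t (x ^ 2)
    have e2 := Nat.div_add_mod r0 x
    rw [← hy, ← hr0] at e1
    rw [← ha, ← hb] at e2
    rw [e2, ← pow_two]
    exact e1.symm
  clear_value y r0 a b
  obtain ⟨r, hr⟩ : ∃ r, n = 2 * x + y + 2 + r := ⟨n - (2 * x + y + 2), by omega⟩
  have hr8 : 8 ≤ r := by omega
  obtain ⟨e, he⟩ : ∃ e, m = x ^ 2 + 2 * x * y + (x + a) + (b + 1) + e :=
    ⟨m - (x ^ 2 + 2 * x * y + (x + a) + (b + 1)), by omega⟩
  have he' : e ≤ r * x := by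
    have : e ≤ 8 * x := by
      generalize x ^ 2 + 2 * x * y = P at h1 h2 he
      omega
    exact this.trans (Nat.mul_le_mul_right x hr8)
  obtain ⟨s, hs, hsum⟩ := exists_split x r e he'
  -- the index set of the third class
  let p : Fin y ⊕ (Fin 2 ⊕ Fin r) → ℕ :=
    Sum.elim (fun _ => x) (Sum.elim ![x, b] s)
  let q : Fin y ⊕ (Fin 2 ⊕ Fin r) → ℕ :=
    Sum.elim (fun _ => x) (Sum.elim ![a, 1] (fun _ => 0))
  have hp : ∀ c, p c ≤ x := by
    rintro (c | c | c)
    · exact le_refl x
    · fin_cases c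
      · exact le_refl x
      · exact hb'.le
    · exact hs c
  have hq : ∀ c, q c ≤ x := by
    rintro (c | c | c)
    · exact le_refl x
    · fin_cases c
      · exact ha'.le
      · exact hx
    · exact Nat.zero_le x
  have e1 : 2 * x + Fintype.card (Fin y ⊕ (Fin 2 ⊕ Fin r)) = n := by
    simp only [Fintype.card_sum, Fintype.card_fin]
    omega
  have e2 : x ^ 2 + ∑ c, (p c + q c) = m := by
    rw [Finset.sum_add_distrib]
    simp only [p, q, Fintype.sum_sum_type, Sum.elim_inl, Sum.elim_inr, Fin.sum_univ_two,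
      Finset.sum_const, Finset.card_univ, Fintype.card_fin, smul_eq_mul, mul_zero,
      Matrix.cons_val_zero, Matrix.cons_val_one, hsum]
    rw [he]
    ring
  have e3 : ∑ c, p c * q c = t := by
    simp only [p, q, Fintype.sum_sum_type, Sum.elim_inl, Sum.elim_inr, Fin.sum_univ_two,
      Finset.sum_const, Finset.card_univ, Fintype.card_fin, smul_eq_mul, mul_zero,
      Matrix.cons_val_zero, Matrix.cons_val_one, mul_one]
    rw [ht']
    ring
  have := isFaceVector_gr (p := p) (q := q) x hx hp hq (by rw [e3]; exact ht)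
  rwa [e1, e2, e3] at this

/-- The function which has to be at most `m`. -/
def gg (t x : ℕ) : ℕ := x ^ 2 + 2 * x * (t / x ^ 2) + 3 * x

theorem gg_succ (t x : ℕ) (hx : 0 < x) : gg t (x + 1) ≤ gg t x + (4 * x + 4) := by
  unfold gg
  set A := t / (x + 1) ^ 2 with hA
  set B := t / x ^ 2 with hB
  have hA1 : A * (x + 1) ^ 2 ≤ t := Nat.div_mul_le_self t _
  have hB1 : t < (B + 1) * x ^ 2 := by
    have := Nat.lt_mul_div_succ t (Nat.pow_pos (n := 2) hx)
    rw [mul_comm]
    exact this
  have h : (x + 1) * A < (B + 1) * x := by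
    have h1 : (x + 1) * ((x + 1) * A) < (x + 1) * ((B + 1) * x) := by
      calc (x + 1) * ((x + 1) * A) = A * (x + 1) ^ 2 := by ring
        _ ≤ t := hA1
        _ < (B + 1) * x ^ 2 := hB1
        _ ≤ (x + 1) * ((B + 1) * x) := by nlinarith
    exact Nat.lt_of_mul_lt_mul_left h1
  nlinarith

theorem exists_param (m t x0 : ℕ) (hx0 : 0 < x0) (h0 : gg t x0 ≤ m) :
    ∃ x, x0 ≤ x ∧ gg t x ≤ m ∧ m ≤ gg t x + (4 * x + 3) := by
  classical
  have hle : ∀ x, x ≤ gg t x := fun x => by
    unfold gg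
    nlinarith [Nat.zero_le (x ^ 2), Nat.zero_le (2 * x * (t / x ^ 2))]
  refine ⟨Nat.findGreatest (fun x => gg t x ≤ m) m, ?_, ?_, ?_⟩
  · exact Nat.le_findGreatest ((hle x0).trans h0) h0
  · exact Nat.findGreatest_spec (P := fun x => gg t x ≤ m) ((hle x0).trans h0) h0
  · set x := Nat.findGreatest (fun x => gg t x ≤ m) m with hx
    have hx0' : x0 ≤ x := Nat.le_findGreatest ((hle x0).trans h0) h0
    have h1 : m < gg t (x + 1) := by
      by_contra hcon
      push Not at hcon
      have h2 : x + 1 ≤ Nat.findGreatest (fun x => gg t x ≤ m) m :=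
        Nat.le_findGreatest ((hle _).trans hcon) hcon
      omega
    have h2 := gg_succ t x (by omega)
    omega

end Pool.Agent.Helper74.FV
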