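import Pool.Agent.Helper74.FV.Defs

/-!
# A three-partite graph with prescribed numbers of edges and triangles
-/

namespace Pool.Agent.Helper74.FV

open Finset

section graph

variable {x : ℕ} {ι : Type} (p q : ι → ℕ)

/-- The adjacency relation of the graph on `Fin x ⊕ (Fin x ⊕ ι)`. -/
def adj : (Fin x ⊕ (Fin x ⊕ ι)) → (Fin x ⊕ (Fin x ⊕ ι)) → Prop
  | Sum.inl _, Sum.inr (Sum.inl _) => True
  | Sum.inr (Sum.inl _), Sum.inl _ => True
  | Sum.inl a, Sum.inr (Sum.inr c) => a.1 < p c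
  | Sum.inr (Sum.inr c), Sum.inl a => a.1 < p c
  | Sum.inr (Sum.inl b), Sum.inr (Sum.inr c) => b.1 < q c
  | Sum.inr (Sum.inr c), Sum.inr (Sum.inl b) => b.1 < q c
  | _, _ => False

/-- The graph. -/
def gr (x : ℕ) : SimpleGraph (Fin x ⊕ (Fin x ⊕ ι)) where
  Adj := adj p q
  symm := ⟨by rintro (a | b | c) (a' | b' | c') h <;> exact h⟩
  loopless := ⟨by rintro (a | b | c) h <;> exact h⟩

/-- The three classes. -/
def col (x : ℕ) : (Fin x ⊕ (Fin x ⊕ ι)) → Fin 3
  | Sum.inl _ => 0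
  | Sum.inr (Sum.inl _) => 1
  | Sum.inr (Sum.inr _) => 2

theorem colorable (x : ℕ) : (gr p q x).Colorable 3 := by
  refine ⟨SimpleGraph.Coloring.mk (col (ι := ι) x) ?_⟩
  rintro (a | b | c) (a' | b' | c') h <;> first | exact h.elim | simp [col]

theorem card_one [Fintype ι] (x : ℕ) :
    Nat.card {s : Finset (Fin x ⊕ (Fin x ⊕ ι)) // (gr p q x).IsNClique 1 s} =
      2 * x + Fintype.card ι := by
  classical
  have h1 : Nat.card (Fin x ⊕ (Fin x ⊕ ι)) = 2 * x + Fintype.card ι := by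
    rw [Nat.card_eq_fintype_card]
    simp
    ring
  rw [← h1]
  symm
  refine Nat.card_congr (Equiv.ofBijective
    (fun v => ⟨{v}, SimpleGraph.isNClique_one.2 ⟨v, rfl⟩⟩) ⟨?_, ?_⟩)
  · intro v w h
    exact Finset.singleton_injective (congrArg Subtype.val h)
  · rintro ⟨s, hs⟩
    obtain ⟨a, rfl⟩ := SimpleGraph.isNClique_one.1 hs
    exact ⟨a, rfl⟩

variable {p q}

theorem isNClique_pair {V : Type} [DecidableEq V] {G : SimpleGraph V} {u v : V} (h : G.Adj u v) :
    G.IsNClique 2 {u, v} := by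
  rw [SimpleGraph.isNClique_iff]
  refine ⟨?_, Finset.card_pair h.ne⟩
  simp only [coe_insert, coe_singleton]
  rw [SimpleGraph.isClique_iff, Set.pairwise_pair]
  exact fun _ => ⟨h, h.symm⟩

theorem exists_of_two {V : Type} [DecidableEq V] {G : SimpleGraph V} {s : Finset V} (h : G.IsNClique 2 s) :
    ∃ u v, G.Adj u v ∧ s = {u, v} := by
  obtain ⟨u, v, huv, rfl⟩ := Finset.card_eq_two.1 h.card_eq
  exact ⟨u, v, h.isClique (by simp) (by simp) huv, rfl⟩

theorem card_two [Fintype ι] (x : ℕ) (hp : ∀ c, p c ≤ x) (hq : ∀ c, q c ≤ x) :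
    Nat.card {s : Finset (Fin x ⊕ (Fin x ⊕ ι)) // (gr p q x).IsNClique 2 s} =
      x ^ 2 + ∑ c, (p c + q c) := by
  classical
  have h1 : Nat.card ((Fin x × Fin x) ⊕ ((Σ c : ι, Fin (p c)) ⊕ (Σ c : ι, Fin (q c)))) =
      x ^ 2 + ∑ c, (p c + q c) := by
    rw [Nat.card_sum, Nat.card_sum, Nat.card_prod, Nat.card_fin, Nat.card_sigma, Nat.card_sigma,
      Finset.sum_add_distrib]
    simp only [Nat.card_fin]
    ring
  rw [← h1]
  symm
  refine Nat.card_congr (Equiv.ofBijective (fun e => match e with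
    | Sum.inl ab => ⟨{Sum.inl ab.1, Sum.inr (Sum.inl ab.2)},
        isNClique_pair (show (gr p q x).Adj (Sum.inl ab.1) (Sum.inr (Sum.inl ab.2)) from trivial)⟩
    | Sum.inr (Sum.inl ca) => ⟨{Sum.inl (Fin.castLE (hp ca.1) ca.2), Sum.inr (Sum.inr ca.1)},
        isNClique_pair (show (gr p q x).Adj (Sum.inl (Fin.castLE (hp ca.1) ca.2))
          (Sum.inr (Sum.inr ca.1)) from ca.2.2)⟩
    | Sum.inr (Sum.inr cb) => ⟨{Sum.inr (Sum.inl (Fin.castLE (hq cb.1) cb.2)),
        Sum.inr (Sum.inr cb.1)},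
        isNClique_pair (show (gr p q x).Adj (Sum.inr (Sum.inl (Fin.castLE (hq cb.1) cb.2)))
          (Sum.inr (Sum.inr cb.1)) from cb.2.2)⟩) ⟨?_, ?_⟩)
  · rintro (⟨a, b⟩ | ⟨c, a⟩ | ⟨c, b⟩) (⟨a', b'⟩ | ⟨c', a'⟩ | ⟨c', b'⟩) h
    all_goals
      have h := congrArg Subtype.val h
      simp only [Finset.ext_iff, Finset.mem_insert, Finset.mem_singleton] at h
    · have ha := h (Sum.inl a)
      have hb := h (Sum.inr (Sum.inl b))
      simp at ha hb
      rw [ha, hb]
    · exact absurd (h (Sum.inr (Sum.inl b))) (by simp)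
    · exact absurd (h (Sum.inl a)) (by simp)
    · exact absurd (h (Sum.inr (Sum.inr c))) (by simp)
    · have hc := h (Sum.inr (Sum.inr c))
      simp at hc
      subst hc
      have ha := h (Sum.inl (Fin.castLE (hp c) a))
      simp at ha
      rw [ha]
    · exact absurd (h (Sum.inl (Fin.castLE (hp c) a))) (by simp)
    · exact absurd (h (Sum.inr (Sum.inr c))) (by simp)
    · exact absurd (h (Sum.inr (Sum.inl (Fin.castLE (hq c) b)))) (by simp)
    · have hc := h (Sum.inr (Sum.inr c))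
      simp at hc
      subst hc
      have hb := h (Sum.inr (Sum.inl (Fin.castLE (hq c) b)))
      simp at hb
      rw [hb]
  · rintro ⟨s, hs⟩
    obtain ⟨u, v, huv, rfl⟩ := exists_of_two hs
    rcases u with a | b | c <;> rcases v with a' | b' | c'
    · exact huv.elim
    · exact ⟨Sum.inl (a, b'), rfl⟩
    · exact ⟨Sum.inr (Sum.inl ⟨c', ⟨a.1, huv⟩⟩), rfl⟩
    · exact ⟨Sum.inl (a', b), Subtype.ext (Finset.pair_comm _ _)⟩
    · exact huv.elim
    · exact ⟨Sum.inr (Sum.inr ⟨c', ⟨b.1, huv⟩⟩), rfl⟩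
    · exact ⟨Sum.inr (Sum.inl ⟨c, ⟨a'.1, huv⟩⟩), Subtype.ext (Finset.pair_comm _ _)⟩
    · exact ⟨Sum.inr (Sum.inr ⟨c, ⟨b'.1, huv⟩⟩), Subtype.ext (Finset.pair_comm _ _)⟩
    · exact huv.elim

theorem card_three [Fintype ι] (x : ℕ) (hp : ∀ c, p c ≤ x) (hq : ∀ c, q c ≤ x) :
    Nat.card {s : Finset (Fin x ⊕ (Fin x ⊕ ι)) // (gr p q x).IsNClique 3 s} =
      ∑ c, p c * q c := by
  classical
  have h1 : Nat.card (Σ c : ι, Fin (p c) × Fin (q c)) = ∑ c, p c * q c := by
    rw [Nat.card_sigma]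
    simp only [Nat.card_prod, Nat.card_fin]
  rw [← h1]
  symm
  refine Nat.card_congr (Equiv.ofBijective (fun e =>
    ⟨{Sum.inl (Fin.castLE (hp e.1) e.2.1), Sum.inr (Sum.inl (Fin.castLE (hq e.1) e.2.2)),
      Sum.inr (Sum.inr e.1)}, SimpleGraph.is3Clique_triple_iff.2
        ⟨by exact trivial, by exact e.2.1.2, by exact e.2.2.2⟩⟩) ⟨?_, ?_⟩)
  · rintro ⟨c, a, b⟩ ⟨c', a', b'⟩ h
    have h := congrArg Subtype.val h
    simp only [Finset.ext_iff, Finset.mem_insert, Finset.mem_singleton] at h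
    have hc := h (Sum.inr (Sum.inr c))
    simp at hc
    subst hc
    have ha := h (Sum.inl (Fin.castLE (hp c) a))
    have hb := h (Sum.inr (Sum.inl (Fin.castLE (hq c) b)))
    simp at ha hb
    rw [ha, hb]
  · rintro ⟨s, hs⟩
    have key : ∀ (a b : Fin x) (c : ι), Sum.inl a ∈ s → Sum.inr (Sum.inl b) ∈ s →
        Sum.inr (Sum.inr c) ∈ s → ∃ e : (Σ c : ι, Fin (p c) × Fin (q c)),
          ({Sum.inl (Fin.castLE (hp e.1) e.2.1), Sum.inr (Sum.inl (Fin.castLE (hq e.1) e.2.2)),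
      Sum.inr (Sum.inr e.1)} : Finset (Fin x ⊕ (Fin x ⊕ ι))) = s := by
      intro a b c ha hb hc
      have hac : (gr p q x).Adj (Sum.inl a) (Sum.inr (Sum.inr c)) :=
        hs.isClique (by exact_mod_cast ha) (by exact_mod_cast hc) (by simp)
      have hbc : (gr p q x).Adj (Sum.inr (Sum.inl b)) (Sum.inr (Sum.inr c)) :=
        hs.isClique (by exact_mod_cast hb) (by exact_mod_cast hc) (by simp)
      refine ⟨⟨c, ⟨a.1, hac⟩, ⟨b.1, hbc⟩⟩, ?_⟩
      refine Finset.eq_of_subset_of_card_le ?_ ?_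
      · intro v hv
        simp only [Finset.mem_insert, Finset.mem_singleton] at hv
        rcases hv with rfl | rfl | rfl
        · exact ha
        · exact hb
        · exact hc
      · rw [hs.card_eq, Finset.card_insert_of_notMem, Finset.card_insert_of_notMem,
          Finset.card_singleton]
        · simp
        · simp
    obtain ⟨u, v, w, huv, huw, hvw, hs3⟩ := SimpleGraph.is3Clique_iff.1 hs
    have hu : u ∈ s := by rw [hs3]; simp
    have hv : v ∈ s := by rw [hs3]; simp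
    have hw : w ∈ s := by rw [hs3]; simp
    have key' : ∃ e : (Σ c : ι, Fin (p c) × Fin (q c)),
          ({Sum.inl (Fin.castLE (hp e.1) e.2.1), Sum.inr (Sum.inl (Fin.castLE (hq e.1) e.2.2)),
      Sum.inr (Sum.inr e.1)} : Finset (Fin x ⊕ (Fin x ⊕ ι))) = s := by
      rcases u with a | b | c <;> rcases v with a' | b' | c' <;> rcases w with a'' | b'' | c'' <;>
        first
        | exact huv.elim
        | exact huw.elim
        | exact hvw.elim
        | exact key _ _ _ hu hv hw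
        | exact key _ _ _ hu hw hv
        | exact key _ _ _ hv hu hw
        | exact key _ _ _ hv hw hu
        | exact key _ _ _ hw hu hv
        | exact key _ _ _ hw hv hu
    obtain ⟨e, he⟩ := key'
    exact ⟨e, Subtype.ext he⟩

theorem card_big (x k : ℕ) (hk : 3 ≤ k) :
    Nat.card {s : Finset (Fin x ⊕ (Fin x ⊕ ι)) // (gr p q x).IsNClique (k + 1) s} = 0 := by
  have h := (colorable p q x).cliqueFree (show 3 < k + 1 by omega)
  have : IsEmpty {s : Finset (Fin x ⊕ (Fin x ⊕ ι)) // (gr p q x).IsNClique (k + 1) s} :=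
    ⟨fun s => h s.1 s.2⟩
  exact Nat.card_of_isEmpty

/-- The f-vectors of the graphs. -/
theorem isFaceVector_gr [Fintype ι] (x : ℕ) (hx : 0 < x) (hp : ∀ c, p c ≤ x) (hq : ∀ c, q c ≤ x)
    (h : 0 < ∑ c, p c * q c) :
    IsFaceVector [2 * x + Fintype.card ι, x ^ 2 + ∑ c, (p c + q c), ∑ c, p c * q c] := by
  refine ⟨?_, Fin x ⊕ (Fin x ⊕ ι), inferInstance, ⟨Sum.inl ⟨0, hx⟩⟩, gr p q x, ?_⟩
  · intro a ha
    simp only [List.mem_cons, List.not_mem_nil, or_false] at ha
    rcases ha with rfl | rfl | rfl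
    · omega
    · have := Nat.pow_pos (n := 2) hx
      omega
    · exact h
  · intro k
    rcases k with _ | _ | _ | k
    · exact card_one p q x
    · exact card_two x hp hq
    · exact card_three x hp hq
    · rw [card_big x (k + 3) (by omega)]
      simp

end graph

end Pool.Agent.Helper74.FV
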