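import Mathlib

/-!
# Upper bounds: weights on a graph without `K₄`

For a weight `w` on the vertices let `PP G k w` be the sum over the cliques with `k` vertices of the
products of the weights. If `u`, `v` are not adjacent, the weights of `u` and `v` can be changed
such that one of them becomes `0`, `PP G k` stays the same and `PP G (k + 1)` does not decrease.
-/

namespace Pool.Agent.Helper74.FV

open Finset

variable {V : Type} [Fintype V] [DecidableEq V] (G : SimpleGraph V)

open Classical in
/-- The cliques with `k` vertices. -/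
noncomputable def cl (k : ℕ) : Finset (Finset V) := univ.filter fun s => G.IsNClique k s

theorem mem_cl {k : ℕ} {s : Finset V} : s ∈ cl G k ↔ G.IsNClique k s := by
  simp [cl]

/-- The sum of the products of the weights. -/
noncomputable def PP (k : ℕ) (w : V → ℝ) : ℝ := ∑ s ∈ cl G k, ∏ i ∈ s, w i

/-- The coefficient of the weight of `u`. -/
noncomputable def PU (k : ℕ) (w : V → ℝ) (u : V) : ℝ :=
  ∑ s ∈ cl G k, if u ∈ s then ∏ i ∈ s.erase u, w i else 0

variable {G}

theorem PP_update {u v : V} (huv : ¬ G.Adj u v) (hne : u ≠ v) (k : ℕ) (w : V → ℝ) (a b : ℝ) :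
    PP G k (Function.update (Function.update w u a) v b) =
      (∑ s ∈ cl G k, if u ∉ s ∧ v ∉ s then ∏ i ∈ s, w i else 0) + a * PU G k w u +
        b * PU G k w v := by
  unfold PP PU
  rw [Finset.mul_sum, Finset.mul_sum, ← Finset.sum_add_distrib, ← Finset.sum_add_distrib]
  refine Finset.sum_congr rfl fun s hs => ?_
  rw [mem_cl] at hs
  have hupd : ∀ i, i ≠ u → i ≠ v → Function.update (Function.update w u a) v b i = w i := by
    intro i hu hv
    rw [Function.update_of_ne hv, Function.update_of_ne hu]
  by_cases hu : u ∈ s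
  · have hv : v ∉ s := fun hv => huv (hs.isClique hu hv hne)
    rw [if_neg (by simp [hu]), if_pos hu, if_neg hv, mul_zero, add_zero, zero_add,
      ← Finset.mul_prod_erase s _ hu, Function.update_of_ne hne, Function.update_self]
    congr 1
    refine Finset.prod_congr rfl fun i hi => ?_
    rw [Finset.mem_erase] at hi
    exact hupd i hi.1 fun h => hv (h ▸ hi.2)
  · by_cases hv : v ∈ s
    · rw [if_neg (by simp [hv]), if_neg hu, if_pos hv, mul_zero, add_zero, zero_add,
        ← Finset.mul_prod_erase s _ hv, Function.update_self]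
      congr 1
      refine Finset.prod_congr rfl fun i hi => ?_
      rw [Finset.mem_erase] at hi
      exact hupd i (fun h => hu (h ▸ hi.2)) hi.1
    · rw [if_pos ⟨hu, hv⟩, if_neg hu, if_neg hv, mul_zero, mul_zero, add_zero, add_zero]
      exact Finset.prod_congr rfl fun i hi =>
        hupd i (fun h => hu (h ▸ hi)) (fun h => hv (h ▸ hi))

theorem PU_nonneg (k : ℕ) {w : V → ℝ} (hw : ∀ i, 0 ≤ w i) (u : V) : 0 ≤ PU G k w u := by
  refine Finset.sum_nonneg fun s _ => ?_
  split_ifs
  · exact Finset.prod_nonneg fun i _ => hw i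
  · exact le_refl 0

/-- If the coefficient in degree `k` is zero, so is the one in degree `k + 1`. -/
theorem PU_zero {k : ℕ} (hk : 1 ≤ k) {w : V → ℝ} (hw : ∀ i, 0 ≤ w i) {u : V}
    (h : PU G k w u = 0) : PU G (k + 1) w u = 0 := by
  unfold PU at h ⊢
  rw [Finset.sum_eq_zero_iff_of_nonneg] at h
  · refine Finset.sum_eq_zero fun s hs => ?_
    rw [mem_cl] at hs
    split_ifs with hu
    · have hc : 0 < (s.erase u).card := by
        rw [Finset.card_erase_of_mem hu, hs.card_eq]
        omega
      obtain ⟨j, hj⟩ := Finset.card_pos.1 hc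
      rw [← Finset.mul_prod_erase _ _ hj]
      rw [Finset.mem_erase] at hj
      have h1 : s.erase j ∈ cl G k := by
        rw [mem_cl]
        refine ⟨hs.isClique.subset (by simp [Finset.erase_subset]), ?_⟩
        rw [Finset.card_erase_of_mem hj.2, hs.card_eq]
        rfl
      have h2 := h _ h1
      rw [if_pos (Finset.mem_erase.2 ⟨hj.1.symm, hu⟩)] at h2
      rw [Finset.erase_right_comm, h2, mul_zero]
    · rfl
  · intro s _
    split_ifs
    · exact Finset.prod_nonneg fun i _ => hw i
    · exact le_refl 0

/-- A linear programme in two variables. -/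
theorem lp {l₁ l₂ m₁ m₂ p q : ℝ} (hp : 0 ≤ p) (hq : 0 ≤ q) (h₁ : 0 ≤ l₁) (h₂ : 0 ≤ l₂)
    (h₁' : l₁ = 0 → m₁ = 0) (h₂' : l₂ = 0 → m₂ = 0) :
    ∃ a b : ℝ, 0 ≤ a ∧ 0 ≤ b ∧ (a = 0 ∨ b = 0) ∧ a * l₁ + b * l₂ = p * l₁ + q * l₂ ∧
      p * m₁ + q * m₂ ≤ a * m₁ + b * m₂ := by
  rcases eq_or_lt_of_le h₁ with h1 | h1
  · refine ⟨0, q, le_refl 0, hq, Or.inl rfl, ?_, ?_⟩
    · rw [← h1]
      ring
    · rw [h₁' h1.symm]
      linarith
  · rcases eq_or_lt_of_le h₂ with h2 | h2
    · refine ⟨p, 0, hp, le_refl 0, Or.inr rfl, ?_, ?_⟩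
      · rw [← h2]
        ring
      · rw [h₂' h2.symm]
        linarith
    · rcases le_total (m₂ * l₁) (m₁ * l₂) with h3 | h3
      · refine ⟨p + q * l₂ / l₁, 0, by positivity, le_refl 0, Or.inr rfl, ?_, ?_⟩
        · field_simp
          ring
        · have h4 : q * m₂ ≤ q * l₂ / l₁ * m₁ := by
            rw [div_mul_eq_mul_div, le_div_iff₀ h1]
            nlinarith
          linarith
      · refine ⟨0, q + p * l₁ / l₂, le_refl 0, by positivity, Or.inl rfl, ?_, ?_⟩
        · field_simp
          ring
        · have h4 : p * m₁ ≤ p * l₁ / l₂ * m₂ := by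
            rw [div_mul_eq_mul_div, le_div_iff₀ h2]
            nlinarith
          linarith

/-- Reduction to weights supported on a clique. -/
theorem reduce {k : ℕ} (hk : 1 ≤ k) : ∀ (c : ℕ) (w : V → ℝ), (∀ i, 0 ≤ w i) →
    (univ.filter fun i => w i ≠ 0).card ≤ c → ∃ w' : V → ℝ, (∀ i, 0 ≤ w' i) ∧
      G.IsClique {i | w' i ≠ 0} ∧ PP G k w' = PP G k w ∧ PP G (k + 1) w ≤ PP G (k + 1) w' := by
  intro c
  induction c with
  | zero =>
    intro w hw hc
    refine ⟨w, hw, ?_, rfl, le_refl _⟩
    intro i hi
    have : i ∈ (univ.filter fun i => w i ≠ 0) := by simpa using hi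
    have := Finset.card_pos.2 ⟨i, this⟩
    omega
  | succ c ih =>
    intro w hw hc
    by_cases hcl : G.IsClique {i | w i ≠ 0}
    · exact ⟨w, hw, hcl, rfl, le_refl _⟩
    · rw [SimpleGraph.isClique_iff, Set.Pairwise] at hcl
      push Not at hcl
      obtain ⟨u, hu, v, hv, hne, huv⟩ := hcl
      have hu : w u ≠ 0 := hu
      have hv : w v ≠ 0 := hv
      obtain ⟨a, b, ha, hb, hab, e1, e2⟩ := lp (hw u) (hw v) (PU_nonneg (G := G) k hw u)
        (PU_nonneg (G := G) k hw v) (PU_zero hk hw) (PU_zero hk hw)
      have hw0 : Function.update (Function.update w u (w u)) v (w v) = w := by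
        rw [Function.update_eq_self, Function.update_eq_self]
      set w' := Function.update (Function.update w u a) v b with hw'
      have h1 := PP_update huv hne k w a b
      have h2 := PP_update huv hne k w (w u) (w v)
      have h3 := PP_update huv hne (k + 1) w a b
      have h4 := PP_update huv hne (k + 1) w (w u) (w v)
      rw [hw0] at h2 h4
      rw [← hw'] at h1 h3
      have hw'0 : ∀ i, 0 ≤ w' i := by
        intro i
        rw [hw']
        by_cases hiv : i = v
        · subst hiv
          rw [Function.update_self]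
          exact hb
        · rw [Function.update_of_ne hiv]
          by_cases hiu : i = u
          · subst hiu
            rw [Function.update_self]
            exact ha
          · rw [Function.update_of_ne hiu]
            exact hw i
      have hcard : (univ.filter fun i => w' i ≠ 0).card < (univ.filter fun i => w i ≠ 0).card := by
        apply Finset.card_lt_card
        rw [Finset.ssubset_iff_of_subset]
        · rcases hab with h0 | h0
          · refine ⟨u, by simpa using hu, ?_⟩
            simp only [mem_filter, mem_univ, true_and, not_not]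
            rw [hw', Function.update_of_ne hne, Function.update_self, h0]
          · refine ⟨v, by simpa using hv, ?_⟩
            simp only [mem_filter, mem_univ, true_and, not_not]
            rw [hw', Function.update_self, h0]
        · intro i hi
          simp only [mem_filter, mem_univ, true_and] at hi ⊢
          by_cases hiv : i = v
          · subst hiv
            exact hv
          · by_cases hiu : i = u
            · subst hiu
              exact hu
            · rwa [hw', Function.update_of_ne hiv, Function.update_of_ne hiu] at hi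
      obtain ⟨w'', hw''0, hcl'', e3, e4⟩ := ih w' hw'0 (by omega)
      refine ⟨w'', hw''0, hcl'', ?_, ?_⟩
      · rw [e3, h1, h2]
        linarith
      · refine le_trans ?_ e4
        rw [h3, h4]
        linarith

/-- For weights supported on a clique `S` the sum is a symmetric function. -/
theorem PP_clique (k : ℕ) (w : V → ℝ) (S : Finset V) (hS : ∀ i, i ∈ S ↔ w i ≠ 0)
    (hcl : G.IsClique {i | w i ≠ 0}) : PP G k w = ∑ s ∈ S.powersetCard k, ∏ i ∈ s, w i := by
  unfold PP
  symm
  apply Finset.sum_subset
  · intro s hs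
    rw [Finset.mem_powersetCard] at hs
    rw [mem_cl]
    exact ⟨hcl.subset fun i hi => (hS i).1 (hs.1 hi), hs.2⟩
  · intro s hs hs'
    rw [mem_cl] at hs
    rw [Finset.mem_powersetCard] at hs'
    have : ¬ s ⊆ S := fun h => hs' ⟨h, hs.card_eq⟩
    rw [Finset.not_subset] at this
    obtain ⟨i, hi, hiS⟩ := this
    rw [hS] at hiS
    exact Finset.prod_eq_zero hi (not_not.1 hiS)

theorem card_le_three (h4 : G.CliqueFree 4) (w : V → ℝ) (hcl : G.IsClique {i | w i ≠ 0}) :
    (univ.filter fun i => w i ≠ 0).card ≤ 3 := by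
  by_contra hcon
  push Not at hcon
  obtain ⟨T, hT, hTc⟩ := Finset.exists_subset_card_eq (n := 4) (s := univ.filter fun i => w i ≠ 0)
    (by omega)
  refine h4 T ⟨hcl.subset fun i hi => ?_, hTc⟩
  have := hT hi
  simpa using this

/-- The symmetric functions of at most three nonnegative numbers. -/
theorem symm_ineq (w : V → ℝ) (hw : ∀ i, 0 ≤ w i) (S : Finset V) (hS : S.card ≤ 3) :
    3 * (∑ s ∈ S.powersetCard 2, ∏ i ∈ s, w i) ≤ (∑ s ∈ S.powersetCard 1, ∏ i ∈ s, w i) ^ 2 ∧
    27 * (∑ s ∈ S.powersetCard 3, ∏ i ∈ s, w i) ^ 2 ≤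
      (∑ s ∈ S.powersetCard 2, ∏ i ∈ s, w i) ^ 3 := by
  have hnn : ∀ k, 0 ≤ ∑ s ∈ S.powersetCard k, ∏ i ∈ s, w i := fun k =>
    Finset.sum_nonneg fun s _ => Finset.prod_nonneg fun i _ => hw i
  rcases Nat.lt_or_ge S.card 3 with h3 | h3
  · have h0 : S.powersetCard 3 = ∅ := Finset.powersetCard_eq_empty.2 h3
    refine ⟨?_, ?_⟩
    · rcases Nat.lt_or_ge S.card 2 with h2 | h2
      · rw [Finset.powersetCard_eq_empty.2 h2]
        simp only [Finset.sum_empty, mul_zero]
        exact sq_nonneg _
      · obtain ⟨a, b, hab, rfl⟩ := Finset.card_eq_two.1 (by omega : S.card = 2)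
        have e2 : ({a, b} : Finset V).powersetCard 2 = {{a, b}} := by
          rw [← Finset.card_pair hab, Finset.powersetCard_self]
        rw [e2, Finset.powersetCard_one]
        simp only [Finset.sum_singleton, Finset.sum_map, Finset.prod_pair hab,
          Finset.sum_pair hab]
        simp
        nlinarith [hw a, hw b, sq_nonneg (w a - w b), mul_nonneg (hw a) (hw b)]
    · rw [h0]
      simp only [Finset.sum_empty]
      have := pow_nonneg (hnn 2) 3
      linarith
  · obtain ⟨a, b, c, hab, hac, hbc, rfl⟩ := Finset.card_eq_three.1 (by omega : S.card = 3)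
    have e1 : (∑ s ∈ ({a, b, c} : Finset V).powersetCard 1, ∏ i ∈ s, w i) = w a + w b + w c := by
      rw [Finset.powersetCard_one, Finset.sum_map]
      simp [hab, hac, hbc]
      ring
    have e3 : (∑ s ∈ ({a, b, c} : Finset V).powersetCard 3, ∏ i ∈ s, w i) = w a * w b * w c := by
      have h : ({a, b, c} : Finset V).powersetCard 3 = {{a, b, c}} := by
        have := Finset.card_eq_three.2 ⟨a, b, c, hab, hac, hbc, rfl⟩
        rw [← this, Finset.powersetCard_self]
      rw [h]
      simp [hab, hac, hbc]
      ring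
    have e2 : (∑ s ∈ ({a, b, c} : Finset V).powersetCard 2, ∏ i ∈ s, w i) =
        w a * w b + w a * w c + w b * w c := by
      rw [Finset.powersetCard_succ_insert (by simp [hab, hac]) 1,
        Finset.sum_union, Finset.sum_image, Finset.powersetCard_one]
      · have h : ({b, c} : Finset V).powersetCard 2 = {{b, c}} := by
          rw [← Finset.card_pair hbc, Finset.powersetCard_self]
        rw [h]
        simp [hab, hac, hbc]
        ring
      · intro s hs t ht h
        have hs' := (Finset.mem_powersetCard.1 hs).1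
        have ht' := (Finset.mem_powersetCard.1 ht).1
        have ha : a ∉ s := fun h => by
          have := hs' h
          simp [hab, hac] at this
        have ha' : a ∉ t := fun h => by
          have := ht' h
          simp [hab, hac] at this
        rw [← Finset.erase_insert ha, ← Finset.erase_insert ha', h]
      · rw [Finset.disjoint_left]
        intro s hs hs'
        obtain ⟨t, -, rfl⟩ := Finset.mem_image.1 hs'
        have := (Finset.mem_powersetCard.1 hs).1 (Finset.mem_insert_self a t)
        simp [hab, hac] at this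
    rw [e1, e2, e3]
    have ha := hw a
    have hb := hw b
    have hc := hw c
    constructor
    · nlinarith [sq_nonneg (w a - w b), sq_nonneg (w a - w c), sq_nonneg (w b - w c)]
    · have key : ∀ x y z : ℝ, 0 ≤ x → 0 ≤ y → 0 ≤ z → 27 * (x * y * z) ≤ (x + y + z) ^ 3 := by
        intro x y z hx hy hz
        nlinarith [mul_nonneg hx (sq_nonneg (y - z)), mul_nonneg hy (sq_nonneg (x - z)),
          mul_nonneg hz (sq_nonneg (x - y)), mul_nonneg hx (sq_nonneg (x - y)),
          mul_nonneg hx (sq_nonneg (x - z)), mul_nonneg hy (sq_nonneg (x - y)),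
          mul_nonneg hy (sq_nonneg (y - z)), mul_nonneg hz (sq_nonneg (x - z)),
          mul_nonneg hz (sq_nonneg (y - z))]
      have h := key (w a * w b) (w a * w c) (w b * w c) (mul_nonneg ha hb) (mul_nonneg ha hc)
        (mul_nonneg hb hc)
      have e : (w a * w b * w c) ^ 2 = w a * w b * (w a * w c) * (w b * w c) := by ring
      rw [e]
      exact h

/-- The upper bounds (Turán; Fisher and Ryan) for a graph without `K₄`. -/
theorem upper (h4 : G.CliqueFree 4) :
    3 * ((cl G 2).card : ℝ) ≤ ((cl G 1).card : ℝ) ^ 2 ∧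
      27 * ((cl G 3).card : ℝ) ^ 2 ≤ ((cl G 2).card : ℝ) ^ 3 := by
  have hPP : ∀ k, PP G k (fun _ => (1 : ℝ)) = ((cl G k).card : ℝ) := by
    intro k
    simp [PP]
  have hpos : ∀ i : V, (0 : ℝ) ≤ (fun _ => (1 : ℝ)) i := fun _ => zero_le_one
  constructor
  · obtain ⟨w, hw, hcl, e1, e2⟩ := reduce (G := G) (k := 1) le_rfl _ (fun _ => (1 : ℝ)) hpos le_rfl
    have hS : ∀ i, i ∈ (univ.filter fun i => w i ≠ 0) ↔ w i ≠ 0 := fun i => by simp
    have h := symm_ineq w hw _ (card_le_three h4 w hcl)
    rw [← PP_clique 1 w _ hS hcl, ← PP_clique 2 w _ hS hcl] at h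
    rw [hPP] at e1 e2
    have := h.1
    rw [e1] at this
    have e2' : ((cl G 2).card : ℝ) ≤ PP G 2 w := e2
    linarith
  · obtain ⟨w, hw, hcl, e1, e2⟩ := reduce (G := G) (k := 2) (by norm_num) _ (fun _ => (1 : ℝ)) hpos
      le_rfl
    have hS : ∀ i, i ∈ (univ.filter fun i => w i ≠ 0) ↔ w i ≠ 0 := fun i => by simp
    have h := symm_ineq w hw _ (card_le_three h4 w hcl)
    rw [← PP_clique 2 w _ hS hcl, ← PP_clique 3 w _ hS hcl] at h
    rw [hPP] at e1 e2
    have := h.2
    rw [e1] at this
    have e2' : ((cl G 3).card : ℝ) ≤ PP G 3 w := e2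
    have e3 : ((cl G 3).card : ℝ) ^ 2 ≤ PP G 3 w ^ 2 :=
      pow_le_pow_left₀ (Nat.cast_nonneg _) e2' 2
    linarith

end Pool.Agent.Helper74.FV
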